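import Pool.Agent.Helper95.OD.St

set_option autoImplicit false

/-! Module LL of project OD (MP_e0fa86_co): the local lemma by counting. -/

namespace Pool.Agent.Helper40.OD

open Pool.Agent.Helper95.OD Finset
open scoped Classical

theorem av_mono {m r : ℕ} {S T : Finset (Finset (Cl m r))} (h : S ⊆ T) : Av T ⊆ Av S := by
  intro σ hσ
  simp only [Av, mem_filter, mem_univ, true_and] at hσ ⊢
  exact fun N hN => hσ N (h hN)

theorem av_insert {m r : ℕ} (S : Finset (Finset (Cl m r))) (N : Finset (Cl m r)) :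
    (Av (insert N S)).card + (Av S ∩ Ev N).card = (Av S).card := by
  have h1 : Av (insert N S) = Av S \ Ev N := by
    ext σ
    simp only [Av, Ev, mem_filter, mem_univ, true_and, mem_insert, mem_sdiff,
      forall_eq_or_imp, not_forall, exists_prop]
    exact and_comm
  rw [h1]
  exact card_sdiff_add_card_inter _ _

theorem add_le {m r : ℕ} (S U : Finset (Finset (Cl m r)))
    (hw : ∀ N ∈ U, 0 ≤ wt N ∧ wt N ≤ 1)
    (h : ∀ V ⊆ U, ∀ N ∈ U, N ∉ S ∪ V →
      ((Av (S ∪ V) ∩ Ev N).card : ℝ) ≤ wt N * (Av (S ∪ V)).card) :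
    (∏ N ∈ U, (1 - wt N)) * ((Av S).card : ℝ) ≤ (Av (S ∪ U)).card := by
  induction U using Finset.induction_on with
  | empty => simp
  | insert N U hNU ih =>
    have ih' := ih (fun N' hN' => hw N' (mem_insert_of_mem hN'))
      (fun V hV N' hN' hn => h V (hV.trans (subset_insert _ _)) N' (mem_insert_of_mem hN') hn)
    rw [prod_insert hNU]
    obtain ⟨hw0, hw1⟩ := hw N (mem_insert_self _ _)
    have hp : (0 : ℝ) ≤ ((Av (S ∪ U)).card : ℝ) := Nat.cast_nonneg _
    have h1 : (1 - wt N) * (∏ N ∈ U, (1 - wt N)) * ((Av S).card : ℝ)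
        ≤ (1 - wt N) * (Av (S ∪ U)).card := by
      rw [mul_assoc]
      exact mul_le_mul_of_nonneg_left ih' (by linarith)
    by_cases hN : N ∈ S ∪ U
    · have h2 : S ∪ insert N U = S ∪ U := by
        ext x
        simp only [mem_union, mem_insert] at hN ⊢
        constructor
        · rintro (h | rfl | h)
          · exact Or.inl h
          · exact hN
          · exact Or.inr h
        · rintro (h | h)
          · exact Or.inl h
          · exact Or.inr (Or.inr h)
      rw [h2]
      have h3 : wt N * (Av (S ∪ U)).card ≥ 0 := mul_nonneg hw0 hp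
      nlinarith
    · have h2 : S ∪ insert N U = insert N (S ∪ U) := by
        rw [union_insert]
      have h3 := h U (subset_insert _ _) N (mem_insert_self _ _) hN
      have h4 := av_insert (S ∪ U) N
      rw [h2]
      have h5 : ((Av (insert N (S ∪ U))).card : ℝ) + ((Av (S ∪ U) ∩ Ev N).card : ℝ)
          = (Av (S ∪ U)).card := by exact_mod_cast h4
      nlinarith

theorem hLL : LL := by
  intro hND hNM m r B hr hTr hcard hprod
  have hr' : (3 : ℝ) ≤ r := by exact_mod_cast hr
  have hrp : (0 : ℝ) < r := by linarith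
  have hw : ∀ N ∈ B, 0 ≤ wt N ∧ wt N ≤ 1 := by
    intro N _
    have h1 : (0 : ℝ) ≤ 2 / r := by positivity
    have h2 : (2 : ℝ) / r ≤ 1 := by
      rw [div_le_one hrp]
      linarith
    exact ⟨pow_nonneg h1 _, pow_le_one₀ h1 h2⟩
  have first : ∀ k : ℕ, ∀ S ⊆ B, S.card = k → ∀ N ∈ B,
      ((Av S ∩ Ev N).card : ℝ) ≤ wt N * (Av S).card := by
    intro k
    induction k using Nat.strong_induction_on with
    | _ k ih =>
      intro S hS hSk N hN
      have hS1B : S.filter (fun N' => CC N N') ⊆ B.filter (fun N' => CC N N') :=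
        filter_subset_filter _ hS
      have hun : S.filter (fun N' => ¬ CC N N') ∪ S.filter (fun N' => CC N N') = S := by
        rw [union_comm]
        exact filter_union_filter_not_eq _ _
      have hS1S : S.filter (fun N' => CC N N') ⊆ S := filter_subset _ _
      have hS2S : S.filter (fun N' => ¬ CC N N') ⊆ S := filter_subset _ _
      have hS2 : ∀ N' ∈ S.filter (fun N' => ¬ CC N N'), ¬ CC N N' := fun N' h =>
        (mem_filter.1 h).2
      generalize S.filter (fun N' => CC N N') = S1 at *
      generalize S.filter (fun N' => ¬ CC N N') = S2 at *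
      have hadd := add_le S2 S1 (fun N' h => hw N' (hS (hS1S h))) (by
        intro V hV N' hN' hn
        have hsub : S2 ∪ V ⊆ S := union_subset hS2S (hV.trans hS1S)
        have hlt : (S2 ∪ V).card < k := by
          rw [← hSk]
          refine card_lt_card ⟨hsub, fun hh => hn (hh (hS1S hN'))⟩
        exact ih _ hlt (S2 ∪ V) (hsub.trans hS) rfl N' (hS (hS1S hN')))
      rw [hun] at hadd
      have hbig : (∏ N' ∈ B.filter (fun N' => CC N N'), (1 - wt N'))
          ≤ ∏ N' ∈ S1, (1 - wt N') := by
        rw [← prod_sdiff hS1B]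
        have e1 : ∏ N' ∈ B.filter (fun N' => CC N N') \ S1, (1 - wt N') ≤ 1 := by
          refine prod_le_one (fun N' h => ?_) (fun N' h => ?_)
          · have := hw N' (mem_filter.1 (mem_sdiff.1 h).1).1
            linarith [this.2]
          · have := hw N' (mem_filter.1 (mem_sdiff.1 h).1).1
            linarith [this.1]
        have e2 : 0 ≤ ∏ N' ∈ S1, (1 - wt N') := by
          refine prod_nonneg fun N' h => ?_
          have := hw N' (hS (hS1S h))
          linarith [this.2]
        nlinarith
      have hpN := hprod N hN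
      have hnm := (hNM hND m r S2).1 N (hTr N hN) hS2
      have hnm' : ((Av S2 ∩ Ev N).card : ℝ) * (r : ℝ) ^ N.card ≤ (Av S2).card := by
        exact_mod_cast hnm
      have hle : ((Av S ∩ Ev N).card : ℝ) ≤ ((Av S2 ∩ Ev N).card : ℝ) := by
        exact_mod_cast card_le_card (inter_subset_inter_right (av_mono hS2S))
      have ha : (0 : ℝ) ≤ ((Av S2).card : ℝ) := Nat.cast_nonneg _
      have h2p : (0 : ℝ) < (2 : ℝ) ^ N.card := by positivity
      have hrN : (0 : ℝ) < (r : ℝ) ^ N.card := by positivity
      have hA : ((Av S2).card : ℝ) ≤ (2 : ℝ) ^ N.card * (Av S).card := by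
        calc ((Av S2).card : ℝ) = 1 * (Av S2).card := by rw [one_mul]
          _ ≤ ((2 : ℝ) ^ N.card * ∏ N' ∈ B.filter (fun N' => CC N N'), (1 - wt N'))
              * (Av S2).card := mul_le_mul_of_nonneg_right hpN ha
          _ ≤ ((2 : ℝ) ^ N.card * ∏ N' ∈ S1, (1 - wt N')) * (Av S2).card :=
              mul_le_mul_of_nonneg_right (mul_le_mul_of_nonneg_left hbig h2p.le) ha
          _ = (2 : ℝ) ^ N.card * ((∏ N' ∈ S1, (1 - wt N')) * (Av S2).card) := by ring
          _ ≤ _ := mul_le_mul_of_nonneg_left hadd h2p.le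
      have hfin : ((Av S ∩ Ev N).card : ℝ) * (r : ℝ) ^ N.card
          ≤ (2 : ℝ) ^ N.card * (Av S).card :=
        ((mul_le_mul_of_nonneg_right hle hrN.le).trans hnm').trans hA
      unfold wt
      rw [div_pow, div_mul_eq_mul_div, le_div_iff₀ hrN]
      exact hfin
  have part1 : ∀ S ⊆ B, ∀ N ∈ B, ((Av S ∩ Ev N).card : ℝ) ≤ wt N * (Av S).card :=
    fun S hS N hN => first _ S hS rfl N hN
  refine ⟨part1, fun S hS U hU => ?_⟩
  exact add_le S U (fun N hN => hw N (hU hN)) (fun V hV N hN _ =>
    part1 _ (union_subset hS (hV.trans hU)) N (hU hN))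

end Pool.Agent.Helper40.OD
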